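import Mathlib

set_option autoImplicit false
set_option linter.unusedSectionVars false

namespace Pool.Agent.Work.MP_75fda7_co

open Finset

variable {V : Type*} {T : SimpleGraph V}

/-- In a tree, for `x ≠ r` there is exactly one neighbour of `x` closer to `r`. -/
theorem existsUnique_closer (hT : T.IsTree) (r x : V) (hx : x ≠ r) :
    ∃! y, T.Adj x y ∧ T.dist r y < T.dist r x := by
  obtain ⟨p, hp, hpl⟩ := hT.connected.exists_path_of_dist r x
  have hpos : 0 < T.dist r x := hT.connected.pos_dist_of_ne hx.symm
  have hnil : ¬ p.Nil := by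
    intro h
    have := SimpleGraph.Walk.length_eq_zero_iff.2 h
    omega
  refine ⟨p.penultimate, ⟨(p.adj_penultimate hnil).symm, ?_⟩, ?_⟩
  · have h1 := SimpleGraph.dist_le p.dropLast
    have h2 : p.dropLast.length = p.length - 1 := by simp
    omega
  · rintro y ⟨hadj, hlt⟩
    obtain ⟨q, hq, hql⟩ := hT.connected.exists_path_of_dist r y
    have hxq : x ∉ q.support := by
      intro h
      have := hT.isAcyclic.path_concat hp hq hadj h
      rw [this, SimpleGraph.Walk.length_concat] at hql
      omega
    have hyp := hT.isAcyclic.mem_support_of_ne_mem_support_of_adj_of_isPath hp hq hadj hxq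
    exact hT.isAcyclic.eq_penultimate_of_adj_end hp hadj hyp

variable [Fintype V] [DecidableEq V] [DecidableRel T.Adj]

theorem card_closer (hT : T.IsTree) (r x : V) :
    ((T.neighborFinset x).filter fun y => T.dist r y < T.dist r x).card =
      if x = r then 0 else 1 := by
  split_ifs with h
  · subst h
    rw [Finset.card_eq_zero, Finset.filter_eq_empty_iff]
    intro y _ hy
    simp at hy
  · obtain ⟨y, hy, huniq⟩ := existsUnique_closer hT r x h
    rw [Finset.card_eq_one]
    refine ⟨y, ?_⟩
    ext z
    simp only [Finset.mem_filter, SimpleGraph.mem_neighborFinset, Finset.mem_singleton]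
    constructor
    · intro hz
      exact huniq z hz
    · rintro rfl
      exact hy

theorem card_farther (hT : T.IsTree) (r x : V) :
    ((T.neighborFinset x).filter fun y => ¬ T.dist r y < T.dist r x).card +
      (if x = r then 0 else 1) = T.degree x := by
  rw [← card_closer hT r x, add_comm, Finset.card_filter_add_card_filter_not,
    SimpleGraph.card_neighborFinset_eq_degree]

/-- The kernel `2 ^ (-dist)`. -/
noncomputable def ker (T : SimpleGraph V) (u x : V) : ℝ := (1 / 2 : ℝ) ^ (T.dist u x)

/-- The local operator of which the kernel is the inverse (up to the factor `3/4`). -/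
noncomputable def opM (T : SimpleGraph V) [DecidableRel T.Adj] (g : V → ℝ) (x : V) : ℝ :=
  (3 + T.degree x) / 4 * g x - 1 / 2 * ∑ y ∈ T.neighborFinset x, g y

theorem ker_symm (u x : V) : ker T u x = ker T x u := by
  unfold ker
  rw [SimpleGraph.dist_comm]

theorem ker_self (u : V) : ker T u u = 1 := by simp [ker]

theorem sum_neighbors_ker (hT : T.IsTree) (u x : V) :
    ∑ y ∈ T.neighborFinset x, ker T u y =
      if x = u then (T.degree x : ℝ) / 2 else (3 + T.degree x) / 2 * ker T u x := by
  have hlt : ∀ y ∈ (T.neighborFinset x).filter (fun y => T.dist u y < T.dist u x),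
      ker T u y = 2 * ker T u x := by
    intro y hy
    rw [Finset.mem_filter, SimpleGraph.mem_neighborFinset] at hy
    have := hT.dist_eq_dist_add_one_of_adj u hy.1
    have h2 : T.dist u x = T.dist u y + 1 := by omega
    unfold ker
    rw [h2, pow_succ]
    ring
  have hge : ∀ y ∈ (T.neighborFinset x).filter (fun y => ¬ T.dist u y < T.dist u x),
      ker T u y = 1 / 2 * ker T u x := by
    intro y hy
    rw [Finset.mem_filter, SimpleGraph.mem_neighborFinset] at hy
    have := hT.dist_eq_dist_add_one_of_adj u hy.1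
    have h2 : T.dist u y = T.dist u x + 1 := by omega
    unfold ker
    rw [h2, pow_succ]
    ring
  rw [← Finset.sum_filter_add_sum_filter_not (T.neighborFinset x)
    (fun y => T.dist u y < T.dist u x), Finset.sum_congr rfl hlt, Finset.sum_congr rfl hge,
    Finset.sum_const, Finset.sum_const, nsmul_eq_mul, nsmul_eq_mul]
  have h1 := card_closer hT u x
  have h2 := card_farther hT u x
  rw [h1]
  split_ifs with h
  · subst h
    rw [if_pos rfl] at h2
    rw [← h2, ker_self]
    push_cast
    ring
  · rw [if_neg h] at h2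
    rw [← h2]
    push_cast
    ring

theorem opM_ker (hT : T.IsTree) (u x : V) :
    opM T (ker T u) x = if x = u then 3 / 4 else 0 := by
  unfold opM
  rw [sum_neighbors_ker hT]
  split_ifs with h
  · subst h
    rw [ker_self]
    ring
  · ring

theorem sum_adj_symm (a b : V → ℝ) :
    ∑ x, a x * ∑ y ∈ T.neighborFinset x, b y = ∑ x, b x * ∑ y ∈ T.neighborFinset x, a y := by
  simp only [Finset.mul_sum, SimpleGraph.neighborFinset_eq_filter, Finset.sum_filter, mul_ite,
    mul_zero]
  rw [Finset.sum_comm]
  refine Finset.sum_congr rfl fun y _ => Finset.sum_congr rfl fun x _ => ?_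
  by_cases h : T.Adj y x
  · rw [if_pos h, if_pos h.symm, mul_comm]
  · rw [if_neg h, if_neg (fun h' => h h'.symm)]

theorem opM_symm (a b : V → ℝ) : ∑ x, a x * opM T b x = ∑ x, b x * opM T a x := by
  have h := sum_adj_symm (T := T) a b
  have e1 : ∑ x, a x * opM T b x = ∑ x, a x * ((3 + T.degree x) / 4 * b x) -
      1 / 2 * ∑ x, a x * ∑ y ∈ T.neighborFinset x, b y := by
    rw [Finset.mul_sum, ← Finset.sum_sub_distrib]
    exact Finset.sum_congr rfl fun x _ => by unfold opM; ring
  have e2 : ∑ x, b x * opM T a x = ∑ x, a x * ((3 + T.degree x) / 4 * b x) -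
      1 / 2 * ∑ x, b x * ∑ y ∈ T.neighborFinset x, a y := by
    rw [Finset.mul_sum, ← Finset.sum_sub_distrib]
    exact Finset.sum_congr rfl fun x _ => by unfold opM; ring
  rw [e1, e2, h]

/-- The kernel inverts `opM`. -/
theorem ker_opM (hT : T.IsTree) (g : V → ℝ) (u : V) :
    ∑ x, ker T u x * opM T g x = 3 / 4 * g u := by
  rw [opM_symm]
  simp only [opM_ker hT, mul_ite, mul_zero, Finset.sum_ite_eq', Finset.mem_univ, if_true]
  ring

/-- Comparison principle. -/
theorem le_sum_ker (hT : T.IsTree) (S : Finset V) (g : V → ℝ)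
    (hg : ∀ x, opM T g x ≤ if x ∈ S then 3 / 4 else 0) (u : V) :
    g u ≤ ∑ x ∈ S, ker T u x := by
  have h1 := ker_opM hT g u
  have h2 : ∑ x, ker T u x * opM T g x ≤ ∑ x, ker T u x * (if x ∈ S then 3 / 4 else 0) := by
    refine Finset.sum_le_sum fun x _ => mul_le_mul_of_nonneg_left (hg x) ?_
    unfold ker
    positivity
  have h3 : ∑ x, ker T u x * (if x ∈ S then (3 / 4 : ℝ) else 0) =
      3 / 4 * ∑ x ∈ S, ker T u x := by
    simp only [mul_ite, mul_zero]
    rw [← Finset.sum_filter, Finset.filter_univ_mem, Finset.mul_sum]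
    exact Finset.sum_congr rfl fun x _ => by ring
  linarith

/-- The energy inequality in trees of maximum degree at most four. -/
theorem energy (hT : T.IsTree) (hdeg : ∀ x, T.degree x ≤ 4) (f : V → ℝ) :
    ∑ x, f x ^ 2 ≤ 56 * ∑ x, f x * opM T f x := by
  obtain ⟨r⟩ := hT.connected.nonempty
  -- split the adjacency form according to the distance from `r`
  have hsplit : ∑ x, f x * ∑ y ∈ T.neighborFinset x, f y =
      2 * ∑ x, ∑ y ∈ (T.neighborFinset x).filter (fun y => T.dist r y < T.dist r x),
        f x * f y := by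
    have e1 : ∀ x, f x * ∑ y ∈ T.neighborFinset x, f y =
        ∑ y ∈ (T.neighborFinset x).filter (fun y => T.dist r y < T.dist r x), f x * f y +
        ∑ y ∈ (T.neighborFinset x).filter (fun y => ¬ T.dist r y < T.dist r x), f x * f y := by
      intro x
      rw [Finset.sum_filter_add_sum_filter_not, Finset.mul_sum]
    have e2 : ∑ x, ∑ y ∈ (T.neighborFinset x).filter (fun y => ¬ T.dist r y < T.dist r x),
        f x * f y =
        ∑ x, ∑ y ∈ (T.neighborFinset x).filter (fun y => T.dist r y < T.dist r x), f x * f y := by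
      simp only [SimpleGraph.neighborFinset_eq_filter, Finset.filter_filter, Finset.sum_filter]
      rw [Finset.sum_comm]
      refine Finset.sum_congr rfl fun y _ => Finset.sum_congr rfl fun x _ => ?_
      by_cases hadj : T.Adj y x
      · have hadj' := hadj.symm
        have := hT.dist_eq_dist_add_one_of_adj r hadj
        by_cases hlt : T.dist r x < T.dist r y
        · rw [if_pos ⟨hadj', by omega⟩, if_pos ⟨hadj, hlt⟩]
          ring
        · rw [if_neg (fun h => h.2 (by omega)), if_neg (fun h => hlt h.2)]
      · rw [if_neg (fun h => hadj h.1.symm), if_neg (fun h => hadj h.1)]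
    rw [Finset.sum_congr rfl fun x _ => e1 x, Finset.sum_add_distrib, e2]
    ring
  -- the elementary estimate for each pair
  have hpair : ∀ x y : V, f x * f y ≤ 7 / 8 * f x ^ 2 + 2 / 7 * f y ^ 2 := by
    intro x y
    nlinarith [sq_nonneg (7 / 4 * f x - f y)]
  have hub : ∑ x, ∑ y ∈ (T.neighborFinset x).filter (fun y => T.dist r y < T.dist r x),
      f x * f y ≤
      ∑ x, 7 / 8 * ((if x = r then (0 : ℝ) else 1) * f x ^ 2) +
      ∑ x, 2 / 7 * (((T.degree x : ℝ) - (if x = r then (0 : ℝ) else 1)) * f x ^ 2) := by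
    have f1 : ∑ x, ∑ y ∈ (T.neighborFinset x).filter (fun y => T.dist r y < T.dist r x),
        f x * f y ≤ ∑ x, ∑ y ∈ (T.neighborFinset x).filter (fun y => T.dist r y < T.dist r x),
        (7 / 8 * f x ^ 2 + 2 / 7 * f y ^ 2) :=
      Finset.sum_le_sum fun x _ => Finset.sum_le_sum fun y _ => hpair x y
    have f2 : ∑ x, ∑ y ∈ (T.neighborFinset x).filter (fun y => T.dist r y < T.dist r x),
        (7 / 8 * f x ^ 2 + 2 / 7 * f y ^ 2) =
        ∑ x, ∑ y ∈ (T.neighborFinset x).filter (fun y => T.dist r y < T.dist r x),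
          7 / 8 * f x ^ 2 +
        ∑ x, ∑ y ∈ (T.neighborFinset x).filter (fun y => T.dist r y < T.dist r x),
          2 / 7 * f y ^ 2 := by
      rw [← Finset.sum_add_distrib]
      exact Finset.sum_congr rfl fun x _ => Finset.sum_add_distrib
    have f3 : ∑ x, ∑ y ∈ (T.neighborFinset x).filter (fun y => T.dist r y < T.dist r x),
          7 / 8 * f x ^ 2 = ∑ x, 7 / 8 * ((if x = r then (0 : ℝ) else 1) * f x ^ 2) := by
      refine Finset.sum_congr rfl fun x _ => ?_
      rw [Finset.sum_const, card_closer hT, nsmul_eq_mul]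
      split_ifs <;> push_cast <;> ring
    have f4 : ∑ x, ∑ y ∈ (T.neighborFinset x).filter (fun y => T.dist r y < T.dist r x),
          2 / 7 * f y ^ 2 =
        ∑ x, 2 / 7 * (((T.degree x : ℝ) - (if x = r then (0 : ℝ) else 1)) * f x ^ 2) := by
      have g1 : ∑ x, ∑ y ∈ (T.neighborFinset x).filter (fun y => T.dist r y < T.dist r x),
          2 / 7 * f y ^ 2 =
          ∑ y, ∑ x ∈ (T.neighborFinset y).filter (fun x => ¬ T.dist r x < T.dist r y),
          2 / 7 * f y ^ 2 := by
        simp only [SimpleGraph.neighborFinset_eq_filter, Finset.filter_filter, Finset.sum_filter]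
        rw [Finset.sum_comm]
        refine Finset.sum_congr rfl fun y _ => Finset.sum_congr rfl fun x _ => ?_
        by_cases hadj : T.Adj y x
        · have hadj' := hadj.symm
          have := hT.dist_eq_dist_add_one_of_adj r hadj
          by_cases hlt : T.dist r y < T.dist r x
          · rw [if_pos ⟨hadj', hlt⟩, if_pos ⟨hadj, by omega⟩]
          · rw [if_neg (fun h => hlt h.2), if_neg (fun h => h.2 (by omega))]
        · rw [if_neg (fun h => hadj h.1.symm), if_neg (fun h => hadj h.1)]
      rw [g1]
      refine Finset.sum_congr rfl fun x _ => ?_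
      rw [Finset.sum_const, nsmul_eq_mul]
      have := card_farther hT r x
      have h' : (((T.neighborFinset x).filter fun y => ¬ T.dist r y < T.dist r x).card : ℝ) +
        (if x = r then (0 : ℝ) else 1) = T.degree x := by
        rw [← this]
        split_ifs <;> push_cast <;> ring
      rw [← h']
      ring
    rw [f2, f3, f4] at f1
    exact f1
  have hopM : ∑ x, f x * opM T f x = ∑ x, (3 + T.degree x) / 4 * f x ^ 2 -
      1 / 2 * ∑ x, f x * ∑ y ∈ T.neighborFinset x, f y := by
    rw [Finset.mul_sum, ← Finset.sum_sub_distrib]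
    exact Finset.sum_congr rfl fun x _ => by unfold opM; ring
  have hfin : ∑ x, f x ^ 2 ≤ ∑ x, (56 * ((3 + T.degree x) / 4 * f x ^ 2) -
      56 * (7 / 8 * ((if x = r then (0 : ℝ) else 1) * f x ^ 2) +
        2 / 7 * (((T.degree x : ℝ) - (if x = r then (0 : ℝ) else 1)) * f x ^ 2))) := by
    refine Finset.sum_le_sum fun x _ => ?_
    have h4 : (T.degree x : ℝ) ≤ 4 := by exact_mod_cast hdeg x
    have h0 : (0 : ℝ) ≤ (T.degree x : ℝ) := by positivity
    have hs := sq_nonneg (f x)
    split_ifs
    · nlinarith
    · nlinarith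
  rw [Finset.sum_sub_distrib, ← Finset.mul_sum, ← Finset.mul_sum, Finset.sum_add_distrib] at hfin
  rw [hopM, hsplit]
  linarith

end Pool.Agent.Work.MP_75fda7_co
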