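import Pool.Agent.Work.MP_75fda7_co.Defs
import Pool.Agent.Work.MP_75fda7_co.Tree

set_option autoImplicit false
set_option linter.unusedSectionVars false

namespace Pool.Agent.Work.MP_75fda7_co

open Finset

variable {V : Type*} {T : SimpleGraph V}

theorem halfPow_nonneg (d : ℕ∞) : 0 ≤ halfPow d := by
  unfold halfPow
  split_ifs
  · exact le_rfl
  · positivity

theorem halfPow_coe (n : ℕ) : halfPow (n : ℕ∞) = 2 * (1 / 2 : ℝ) ^ n := by
  unfold halfPow
  rw [if_neg (ENat.coe_ne_top n), ENat.toNat_coe, zpow_sub₀ (by norm_num), zpow_natCast, zpow_one]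
  ring

theorem halfPow_antitone {a b : ℕ∞} (h : a ≤ b) : halfPow b ≤ halfPow a := by
  by_cases hb : b = ⊤
  · subst hb
    have : halfPow ⊤ = 0 := by simp [halfPow]
    rw [this]
    exact halfPow_nonneg a
  · have ha : a ≠ ⊤ := ne_top_of_le_ne_top hb h
    obtain ⟨m, rfl⟩ := ENat.ne_top_iff_exists.1 ha
    obtain ⟨n, rfl⟩ := ENat.ne_top_iff_exists.1 hb
    rw [halfPow_coe, halfPow_coe]
    have hmn : m ≤ n := by exact_mod_cast h
    have := pow_le_pow_of_le_one (a := (1 / 2 : ℝ)) (by norm_num) (by norm_num) hmn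
    linarith

theorem dist_le_distS (G : SimpleGraph V) (S : Finset V) (u v : V) :
    (G.dist u v : ℕ∞) ≤ distS G S u v := by
  unfold distS
  refine le_iInf fun p => ?_
  exact_mod_cast SimpleGraph.dist_le p.1

theorem halfPow_distS_le (T : SimpleGraph V) (S : Finset V) (u v : V) :
    halfPow (distS T S u v) ≤ 2 * ker T u v := by
  unfold ker
  rw [← halfPow_coe]
  exact halfPow_antitone (dist_le_distS T S u v)

theorem weight_le (T : SimpleGraph V) (S : Finset V) (u : V) :
    weight T S u ≤ 2 * ∑ v ∈ S, ker T u v := by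
  unfold weight
  rw [Finset.mul_sum]
  exact Finset.sum_le_sum fun v _ => halfPow_distS_le T S u v

theorem distS_self (G : SimpleGraph V) (S : Finset V) (u : V) (hu : u ∈ S) :
    distS G S u u = 0 := by
  unfold distS
  apply le_antisymm _ (zero_le)
  refine iInf_le_of_le ⟨SimpleGraph.Walk.nil, ?_, ?_, ?_⟩ ?_
  · exact SimpleGraph.Walk.IsPath.nil
  · refine ⟨u, ⟨Or.inl rfl, hu⟩, ?_⟩
    rintro y ⟨hy | hy, _⟩ <;> exact hy
  · intro x hx h1
    simp at hx
    exact absurd hx h1
  · simp

theorem one_le_weight_of_mem (G : SimpleGraph V) (S : Finset V) (u : V) (hu : u ∈ S) :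
    1 ≤ weight G S u := by
  unfold weight
  have h1 : halfPow (distS G S u u) = 2 := by
    rw [distS_self G S u hu]
    have := halfPow_coe 0
    simpa using this
  have h2 : halfPow (distS G S u u) ≤ ∑ v ∈ S, halfPow (distS G S u v) :=
    Finset.single_le_sum (f := fun v => halfPow (distS G S u v))
      (fun v _ => halfPow_nonneg _) hu
  linarith

/-- There is an exponential dominating set whose size is the exponential domination number. -/
theorem exists_gammaE [Fintype V] (G : SimpleGraph V) :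
    ∃ S : Finset V, IsExpDom G S ∧ S.card = gammaE G := by
  have : ({k | ∃ S : Finset V, IsExpDom G S ∧ S.card = k} : Set ℕ).Nonempty :=
    ⟨_, Finset.univ, fun u => one_le_weight_of_mem G _ u (Finset.mem_univ u), rfl⟩
  exact Nat.sInf_mem this

theorem gammaE_le (G : SimpleGraph V) (S : Finset V) (hS : IsExpDom G S) :
    gammaE G ≤ S.card := Nat.sInf_le ⟨S, hS, rfl⟩

/-! ### The linear lower bound in maximum degree four -/

theorem card_le_of_isExpDom [Fintype V] [DecidableEq V] [DecidableRel T.Adj] (hT : T.IsTree)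
    (hdeg : ∀ x, T.degree x ≤ 4) (S : Finset V) (hS : IsExpDom T S) :
    (Fintype.card V : ℝ) ≤ 7056 * S.card := by
  set f : V → ℝ := fun u => ∑ s ∈ S, ker T s u with hf
  have hM : ∀ x, opM T f x = if x ∈ S then 3 / 4 else 0 := by
    intro x
    have h1 : opM T f x = ∑ s ∈ S, opM T (ker T s) x := by
      simp only [opM, hf]
      rw [Finset.sum_sub_distrib, ← Finset.mul_sum, ← Finset.mul_sum, Finset.sum_comm]
    rw [h1]
    simp only [opM_ker hT]
    rw [Finset.sum_ite_eq]
  have hw : ∀ u, 1 ≤ 2 * f u := by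
    intro u
    have h1 := hS u
    have h2 := weight_le T S u
    have h3 : f u = ∑ v ∈ S, ker T u v := Finset.sum_congr rfl fun s _ => ker_symm s u
    rw [h3]
    linarith
  have h1 : (Fintype.card V : ℝ) / 4 ≤ ∑ u, f u ^ 2 := by
    have : ∑ _u : V, (1 / 4 : ℝ) ≤ ∑ u, f u ^ 2 := by
      refine Finset.sum_le_sum fun u _ => ?_
      have := hw u
      nlinarith
    rw [Finset.sum_const, nsmul_eq_mul, Finset.card_univ] at this
    linarith
  have h2 := energy hT hdeg f
  have h3 : ∑ x, f x * opM T f x = 3 / 4 * ∑ x ∈ S, f x := by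
    simp only [hM, mul_ite, mul_zero]
    rw [← Finset.sum_filter, Finset.filter_univ_mem, Finset.mul_sum]
    exact Finset.sum_congr rfl fun x _ => by ring
  have h4 : 42 * ∑ x ∈ S, f x ≤ 1 / 2 * ∑ x ∈ S, f x ^ 2 + 882 * S.card := by
    have : ∑ x ∈ S, 42 * f x ≤ ∑ x ∈ S, (1 / 2 * f x ^ 2 + 882) := by
      refine Finset.sum_le_sum fun x _ => ?_
      nlinarith [sq_nonneg (f x - 42)]
    rw [Finset.sum_add_distrib, ← Finset.mul_sum, ← Finset.mul_sum, Finset.sum_const,
      nsmul_eq_mul] at this
    linarith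
  have h5 : ∑ x ∈ S, f x ^ 2 ≤ ∑ x, f x ^ 2 :=
    Finset.sum_le_sum_of_subset_of_nonneg (Finset.subset_univ S) fun x _ _ => sq_nonneg _
  rw [h3] at h2
  linarith

/-! ### A criterion for exponential domination by leaves -/

/-- A vertex of `S` that has at most one neighbour is not an internal vertex of a path. -/
theorem not_internal {u v x : V} (p : T.Walk u v) (hp : p.IsPath)
    (hx : ∀ y y', T.Adj x y → T.Adj x y' → y = y') (hxp : x ∈ p.support) : x = u ∨ x = v := by
  by_contra hcon
  push Not at hcon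
  obtain ⟨q, r, hq, hr, hqr⟩ := hp.mem_support_iff_exists_append.1 hxp
  have hqn : ¬ q.Nil := by
    intro h
    exact hcon.1 h.eq.symm
  have hrn : ¬ r.Nil := by
    intro h
    exact hcon.2 h.eq
  have h1 : T.Adj x q.penultimate := (q.adj_penultimate hqn).symm
  have h2 : T.Adj x r.snd := r.adj_snd hrn
  have h3 := hx _ _ h1 h2
  exact (hqr ▸ hp).ne_of_mem_support_of_append h2.ne' (SimpleGraph.Walk.getVert_mem_support _ _)
    (SimpleGraph.Walk.getVert_mem_support _ _) h3

theorem distS_le_dist (hT : T.IsTree) (S : Finset V)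
    (hleaf : ∀ x ∈ S, ∀ y y', T.Adj x y → T.Adj x y' → y = y') (u v : V) (hu : u ∉ S)
    (hv : v ∈ S) : distS T S u v ≤ (T.dist u v : ℕ∞) := by
  obtain ⟨p, hp, hpl⟩ := hT.connected.exists_path_of_dist u v
  unfold distS
  refine iInf_le_of_le ⟨p, hp, ?_, ?_⟩ ?_
  · refine ⟨v, ⟨Or.inr rfl, hv⟩, ?_⟩
    rintro y ⟨rfl | rfl, hy⟩
    · exact absurd hy hu
    · rfl
  · intro x hx h1 h2 hxS
    rcases not_internal p hp (hleaf x hxS) hx with h | h
    · exact h1 h
    · exact h2 h
  · simp only
    rw [hpl]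

theorem isExpDom_of_leaves [Fintype V] [DecidableEq V] [DecidableRel T.Adj] (hT : T.IsTree)
    (S : Finset V) (hleaf : ∀ x ∈ S, ∀ y y', T.Adj x y → T.Adj x y' → y = y') (g : V → ℝ)
    (hg : ∀ x, opM T g x ≤ if x ∈ S then 3 / 4 else 0) (hg2 : ∀ x, x ∉ S → 1 / 2 ≤ g x) :
    IsExpDom T S := by
  intro u
  by_cases hu : u ∈ S
  · exact one_le_weight_of_mem T S u hu
  · have h1 := le_sum_ker hT S g hg u
    have h2 := hg2 u hu
    have h3 : 2 * ∑ v ∈ S, ker T u v ≤ weight T S u := by
      unfold weight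
      rw [Finset.mul_sum]
      refine Finset.sum_le_sum fun v hv => ?_
      unfold ker
      rw [← halfPow_coe]
      exact halfPow_antitone (distS_le_dist hT S hleaf u v hu hv)
    linarith

/-! ### Trees from parent functions -/

theorem isTree_of_parent {W : Type} [Finite W] (G : SimpleGraph W) (r : W) (par : W → W)
    (ht : W → ℕ) (hlt : ∀ v, v ≠ r → ht (par v) < ht v)
    (hG : ∀ u v, G.Adj u v ↔ (u ≠ r ∧ par u = v) ∨ (v ≠ r ∧ par v = u)) : G.IsTree := by
  rw [SimpleGraph.isTree_iff_connected_and_card]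
  constructor
  · have hr : ∀ n v, ht v = n → G.Reachable v r := by
      intro n
      induction n using Nat.strong_induction_on with
      | _ n ih =>
        intro v hv
        by_cases h : v = r
        · subst h
          exact SimpleGraph.Reachable.refl _
        · have h1 : G.Adj v (par v) := (hG _ _).2 (Or.inl ⟨h, rfl⟩)
          exact h1.reachable.trans (ih _ (hv ▸ hlt v h) _ rfl)
    haveI : Nonempty W := ⟨r⟩
    exact SimpleGraph.Connected.mk fun u v => (hr _ u rfl).trans (hr _ v rfl).symm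
  · let φ : {v : W // v ≠ r} → G.edgeSet := fun v =>
      ⟨s(v.1, par v.1), (hG _ _).2 (Or.inl ⟨v.2, rfl⟩)⟩
    have hφ : Function.Bijective φ := by
      constructor
      · rintro ⟨u, hu⟩ ⟨v, hv⟩ h
        simp only [φ, Subtype.mk.injEq, Sym2.eq_iff] at h
        apply Subtype.ext
        rcases h with h | h
        · exact h.1
        · exfalso
          have h1 := hlt u hu
          have h2 := hlt v hv
          rw [h.2] at h1
          rw [← h.1] at h2
          omega
      · rintro ⟨e, he⟩
        induction e using Sym2.ind with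
        | _ u v =>
          rcases (hG u v).1 he with ⟨h1, h2⟩ | ⟨h1, h2⟩
          · exact ⟨⟨u, h1⟩, Subtype.ext (by simp only [φ, h2])⟩
          · exact ⟨⟨v, h1⟩, Subtype.ext (by simp only [φ, h2]; exact Sym2.eq_swap)⟩
    have h1 : Nat.card G.edgeSet = Nat.card {v : W // v ≠ r} :=
      (Nat.card_congr (Equiv.ofBijective φ hφ)).symm
    have h2 : Nat.card W = Nat.card {v : W // v ≠ r} + 1 := by
      classical
      rw [← Nat.card_congr (Equiv.optionSubtypeNe r), Finite.card_option]
    rw [h1, h2]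

end Pool.Agent.Work.MP_75fda7_co
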