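import Mathlib

set_option autoImplicit false

namespace Pool.Agent.Work.MP_75fda7_co

variable {V : Type*}

/-- The distance `dist_{(G,S)}(u,v)`: the least length of a path from `u` to `v` in `G` such that
exactly one endvertex of the path lies in `S` and no internal vertex of the path lies in `S`;
it is `⊤` if there is no such path. -/
noncomputable def distS (G : SimpleGraph V) (S : Finset V) (u v : V) : ℕ∞ :=
  ⨅ p : {p : G.Walk u v // p.IsPath ∧ (∃! x, (x = u ∨ x = v) ∧ x ∈ S) ∧
    ∀ x ∈ p.support, x ≠ u → x ≠ v → x ∉ S}, (p.1.length : ℕ∞)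

/-- The number `(1/2) ^ (d - 1)`, where `(1/2) ^ ∞ = 0`. -/
noncomputable def halfPow (d : ℕ∞) : ℝ := if d = ⊤ then 0 else (1 / 2 : ℝ) ^ ((d.toNat : ℤ) - 1)

/-- The weight `w_{(G,S)}(u)`. -/
noncomputable def weight (G : SimpleGraph V) (S : Finset V) (u : V) : ℝ :=
  ∑ v ∈ S, halfPow (distS G S u v)

/-- `S` is an exponential dominating set of `G`. -/
def IsExpDom (G : SimpleGraph V) (S : Finset V) : Prop := ∀ u, 1 ≤ weight G S u

/-- The exponential domination number of `G`. -/
noncomputable def gammaE (G : SimpleGraph V) : ℕ :=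
  sInf {k | ∃ S : Finset V, IsExpDom G S ∧ S.card = k}

end Pool.Agent.Work.MP_75fda7_co
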