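import Pool.Agent.Work.MP_75fda7_co.Basic

set_option autoImplicit false
set_option linter.unusedSectionVars false

namespace Pool.Agent.Work.MP_75fda7_co

open Finset

/-- The words `0 :: w` with `w` of length `D`. -/
def isS (D : ℕ) : List (Fin 4) → Prop
  | [] => False
  | a :: w => a = 0 ∧ w.length = D

/-- Words of length at most `N` all of whose proper tails are not in `isS D`. -/
def ok (D N : ℕ) : List (Fin 4) → Prop
  | [] => True
  | _ :: w => ok D N w ∧ w.length < N ∧ ¬ isS D w

theorem ok_tail {D N : ℕ} : ∀ {w : List (Fin 4)}, ok D N w → ok D N w.tail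
  | [], _ => trivial
  | _ :: _, h => h.1

theorem ok_length {D N : ℕ} : ∀ {w : List (Fin 4)}, ok D N w → w.length ≤ N
  | [], _ => Nat.zero_le _
  | _ :: _, h => h.2.1

/-- The vertices of the tree. -/
abbrev W (D N : ℕ) : Type := {w : List (Fin 4) // ok D N w}

instance (D N : ℕ) : Finite (W D N) := by
  have h : ({w : List (Fin 4) | w.length ≤ N}).Finite := List.finite_length_le _ N
  exact Set.Finite.subset h fun w hw => ok_length hw

/-- The root. -/
def root (D N : ℕ) : W D N := ⟨[], trivial⟩

/-- The parent of a vertex. -/
def par {D N : ℕ} (w : W D N) : W D N := ⟨w.1.tail, ok_tail w.2⟩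

theorem ne_root {D N : ℕ} {w : W D N} : w ≠ root D N ↔ w.1 ≠ [] := by
  rw [Ne, Subtype.ext_iff]
  rfl

theorem par_lt {D N : ℕ} (w : W D N) (h : w ≠ root D N) : (par w).1.length < w.1.length := by
  rw [ne_root] at h
  have : 0 < w.1.length := List.length_pos_iff.2 h
  simp only [par, List.length_tail]
  omega

/-- The tree. -/
def tr (D N : ℕ) : SimpleGraph (W D N) where
  Adj u v := (u ≠ root D N ∧ par u = v) ∨ (v ≠ root D N ∧ par v = u)
  symm := ⟨fun _ _ h => h.symm⟩
  loopless := ⟨fun u h => by
    rcases h with h | h <;>
    · have := par_lt u h.1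
      rw [h.2] at this
      exact lt_irrefl _ this⟩

theorem tr_isTree (D N : ℕ) : (tr D N).IsTree :=
  isTree_of_parent (tr D N) (root D N) par (fun w => w.1.length) par_lt fun _ _ => Iff.rfl

section sums

variable {D N : ℕ} [Fintype (W D N)] [DecidableRel (tr D N).Adj]

open Classical in
theorem sum_nbr (w : W D N) (F : List (Fin 4) → ℝ) :
    ∑ y ∈ (tr D N).neighborFinset w, F y.1 =
      (if w.1 = [] then 0 else F w.1.tail) +
      ∑ a : Fin 4, if ok D N (a :: w.1) then F (a :: w.1) else 0 := by
  have h1 : ∑ y ∈ (tr D N).neighborFinset w, F y.1 =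
      ∑ y : W D N, (if w ≠ root D N ∧ par w = y then F y.1 else 0) +
      ∑ y : W D N, (if y ≠ root D N ∧ par y = w then F y.1 else 0) := by
    rw [SimpleGraph.neighborFinset_eq_filter, Finset.sum_filter, ← Finset.sum_add_distrib]
    refine Finset.sum_congr rfl fun y _ => ?_
    by_cases hA : w ≠ root D N ∧ par w = y
    · have hB : ¬ (y ≠ root D N ∧ par y = w) := by
        rintro ⟨h1, h2⟩
        have e1 := par_lt w hA.1
        have e2 := par_lt y h1
        rw [hA.2] at e1
        rw [h2] at e2
        omega
      rw [if_pos hA, if_neg hB, if_pos (show (tr D N).Adj w y from Or.inl hA), add_zero]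
    · by_cases hB : y ≠ root D N ∧ par y = w
      · rw [if_neg hA, if_pos hB, if_pos (show (tr D N).Adj w y from Or.inr hB), zero_add]
      · rw [if_neg hA, if_neg hB, if_neg (show ¬ (tr D N).Adj w y from fun h => h.elim hA hB),
          add_zero]
  have h2 : ∑ y : W D N, (if w ≠ root D N ∧ par w = y then F y.1 else 0) =
      if w.1 = [] then 0 else F w.1.tail := by
    by_cases hw : w.1 = []
    · rw [if_pos hw]
      refine Finset.sum_eq_zero fun y _ => ?_
      rw [if_neg]
      rintro ⟨h, -⟩
      exact ne_root.1 h hw
    · rw [if_neg hw, Finset.sum_eq_single (par w)]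
      · rw [if_pos ⟨ne_root.2 hw, rfl⟩]
        rfl
      · intro y _ hy
        rw [if_neg]
        rintro ⟨-, h⟩
        exact hy h.symm
      · intro h
        exact absurd (Finset.mem_univ _) h
  have h3 : ∑ y : W D N, (if y ≠ root D N ∧ par y = w then F y.1 else 0) =
      ∑ a : Fin 4, if ok D N (a :: w.1) then F (a :: w.1) else 0 := by
    have e1 : ∀ y : W D N, (if y ≠ root D N ∧ par y = w then F y.1 else 0) =
        ∑ a : Fin 4, if y.1 = a :: w.1 then F y.1 else 0 := by
      intro y
      by_cases h : y ≠ root D N ∧ par y = w
      · rw [if_pos h]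
        obtain ⟨hy, hpy⟩ := h
        rw [ne_root] at hy
        obtain ⟨b, v, hbv⟩ := List.exists_cons_of_ne_nil hy
        have hv : v = w.1 := by
          have := congrArg Subtype.val hpy
          simp only [par, hbv, List.tail_cons] at this
          exact this
        rw [Finset.sum_eq_single b]
        · rw [if_pos (by rw [hbv, hv])]
        · intro a _ hab
          rw [if_neg]
          rw [hbv, hv]
          intro h
          exact hab (List.cons.inj h).1.symm
        · intro h
          exact absurd (Finset.mem_univ _) h
      · rw [if_neg h]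
        symm
        refine Finset.sum_eq_zero fun a _ => ?_
        rw [if_neg]
        intro hy
        apply h
        refine ⟨ne_root.2 (by rw [hy]; exact List.cons_ne_nil _ _), ?_⟩
        apply Subtype.ext
        simp only [par, hy, List.tail_cons]
    simp only [e1]
    rw [Finset.sum_comm]
    refine Finset.sum_congr rfl fun a _ => ?_
    by_cases hok : ok D N (a :: w.1)
    · rw [if_pos hok, Finset.sum_eq_single (⟨a :: w.1, hok⟩ : W D N)]
      · simp
      · intro y _ hy
        rw [if_neg]
        intro h
        exact hy (Subtype.ext h)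
      · intro h
        exact absurd (Finset.mem_univ _) h
    · rw [if_neg hok]
      refine Finset.sum_eq_zero fun y _ => ?_
      rw [if_neg]
      intro h
      exact hok (h ▸ y.2)
  rw [h1, h2, h3]

open Classical in
theorem degree_eq (w : W D N) : ((tr D N).degree w : ℝ) =
    (if w.1 = [] then 0 else 1) + ∑ a : Fin 4, if ok D N (a :: w.1) then (1 : ℝ) else 0 := by
  have := sum_nbr w (fun _ => (1 : ℝ))
  rw [← this, Finset.sum_const, SimpleGraph.card_neighborFinset_eq_degree, nsmul_eq_mul, mul_one]

theorem degree_le (w : W D N) : (tr D N).degree w ≤ 5 := by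
  classical
  have h := degree_eq w
  have h1 : (if w.1 = [] then (0 : ℝ) else 1) ≤ 1 := by split_ifs <;> norm_num
  have h2 : ∑ a : Fin 4, (if ok D N (a :: w.1) then (1 : ℝ) else 0) ≤ ∑ _a : Fin 4, (1 : ℝ) :=
    Finset.sum_le_sum fun a _ => by split_ifs <;> norm_num
  rw [Finset.sum_const, Finset.card_univ, Fintype.card_fin, nsmul_eq_mul, mul_one] at h2
  have h3 : ((tr D N).degree w : ℝ) ≤ 5 := by
    rw [h]
    push_cast at h2
    linarith
  exact_mod_cast h3

end sums

/-- The critical value. -/
noncomputable def cc (D : ℕ) : ℝ := 1 / 2 + 3 * (D : ℝ) / 8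

open Classical in
/-- The comparison function. -/
noncomputable def gg (D : ℕ) (w : List (Fin 4)) : ℝ :=
  if isS D w then 3 / 4 + cc D / 2
  else if w.length ≤ D then 2 ^ (D - w.length) * (1 / 2 + 3 * (w.length : ℝ) / 8)
  else cc D / 2 ^ (w.length - D)

theorem gg_S {D : ℕ} {w : List (Fin 4)} (h : isS D w) : gg D w = 3 / 4 + cc D / 2 := by
  unfold gg
  rw [if_pos h]

theorem gg_low {D : ℕ} {w : List (Fin 4)} (h : w.length ≤ D) :
    gg D w = 2 ^ (D - w.length) * (1 / 2 + 3 * (w.length : ℝ) / 8) := by
  unfold gg
  rw [if_neg, if_pos h]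
  intro h2
  cases w with
  | nil => exact h2
  | cons a v =>
    have := h2.2
    simp only [List.length_cons] at h
    omega

theorem gg_high {D : ℕ} {w : List (Fin 4)} (h : D ≤ w.length) (h2 : ¬ isS D w) :
    gg D w = cc D / 2 ^ (w.length - D) := by
  rcases Nat.eq_or_lt_of_le h with h | h
  · rw [gg_low (by omega), ← h]
    simp [cc]
  · unfold gg
    rw [if_neg h2, if_neg (by omega)]

theorem opM_gg {D N : ℕ} [Fintype (W D N)] [DecidableRel (tr D N).Adj] (hD : 1 ≤ D) (hN : D < N)
    (w : W D N) (hw : ¬ isS D w.1) : opM (tr D N) (fun v => gg D v.1) w = 0 := by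
  classical
  obtain ⟨w, hokw⟩ := w
  simp only at hw
  unfold opM
  rw [degree_eq, sum_nbr]
  simp only
  have hok : ∀ a : Fin 4, ok D N (a :: w) ↔ w.length < N := by
    intro a
    constructor
    · exact fun h => h.2.1
    · exact fun h => ⟨hokw, h, hw⟩
  simp only [hok]
  cases w with
  | nil =>
    have h1 : ∀ a : Fin 4, gg D [a] = 2 ^ (D - 1) * (1 / 2 + 3 / 8) := by
      intro a
      rw [gg_low (by simpa using hD)]
      simp
    have h2 : gg D [] = 2 ^ D * (1 / 2) := by
      rw [gg_low (by simp)]
      simp
    have h3 : (2 : ℝ) ^ D = 2 * 2 ^ (D - 1) := by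
      rw [← pow_succ']
      congr 1
      omega
    have h4 : ([] : List (Fin 4)).length < N := by simp; omega
    simp only [h1, h2, if_pos h4, if_true, Finset.sum_const, Finset.card_univ, Fintype.card_fin,
      nsmul_eq_mul]
    rw [h3]
    push_cast
    ring
  | cons b v =>
    rw [if_neg (List.cons_ne_nil _ _), if_neg (List.cons_ne_nil _ _), List.tail_cons]
    have hvS : ¬ isS D v := hokw.2.2
    rcases lt_trichotomy (v.length + 1) D with hlt | heq | hgt
    · -- inner vertices
      have hlen : (b :: v).length < N := by simp only [List.length_cons]; omega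
      have h0 : gg D v = 2 ^ (D - v.length) * (1 / 2 + 3 * (v.length : ℝ) / 8) :=
        gg_low (by omega)
      have h1 : gg D (b :: v) =
          2 ^ (D - (v.length + 1)) * (1 / 2 + 3 * ((v.length : ℝ) + 1) / 8) := by
        rw [gg_low (by simp only [List.length_cons]; omega)]
        simp
      have h2 : ∀ a : Fin 4, gg D (a :: b :: v) =
          2 ^ (D - (v.length + 2)) * (1 / 2 + 3 * ((v.length : ℝ) + 2) / 8) := by
        intro a
        rw [gg_low (by simp only [List.length_cons]; omega)]
        simp only [List.length_cons]
        push_cast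
        rw [show v.length + 1 + 1 = v.length + 2 by ring]
        ring
      obtain ⟨k, hk⟩ : ∃ k, D = v.length + 2 + k := ⟨D - (v.length + 2), by omega⟩
      rw [show D - v.length = k + 2 by omega] at h0
      rw [show D - (v.length + 1) = k + 1 by omega] at h1
      simp only [show D - (v.length + 2) = k by omega] at h2
      simp only [h0, h1, h2, if_pos hlen, Finset.sum_const, Finset.card_univ, Fintype.card_fin,
        nsmul_eq_mul]
      push_cast
      ring
    · -- the vertices at depth `D`
      have hlen : (b :: v).length < N := by simp only [List.length_cons]; omega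
      have h0 : gg D v = 2 * (1 / 2 + 3 * (v.length : ℝ) / 8) := by
        rw [gg_low (by omega), show D - v.length = 1 by omega]
        ring
      have h1 : gg D (b :: v) = cc D := by
        rw [gg_high (by simp only [List.length_cons]; omega) hw]
        simp only [List.length_cons]
        rw [heq]
        simp
      have h2 : ∀ a : Fin 4, gg D (a :: b :: v) =
          if a = 0 then 3 / 4 + cc D / 2 else cc D / 2 := by
        intro a
        split_ifs with ha
        · exact gg_S ⟨ha, by simp only [List.length_cons]; omega⟩
        · have hn : ¬ isS D (a :: b :: v) := fun h => ha h.1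
          rw [gg_high (by simp only [List.length_cons]; omega) hn]
          simp only [List.length_cons]
          rw [show v.length + 1 + 1 - D = 1 by omega]
          ring
      simp only [h0, h1, h2, if_pos hlen]
      rw [Fin.sum_univ_four, Fin.sum_univ_four]
      have hcast : (D : ℝ) = v.length + 1 := by
        rw [← heq]
        push_cast
        ring
      simp only [cc, hcast, Fin.isValue, one_ne_zero, if_true, if_false,
        show (2 : Fin 4) ≠ 0 by decide, show (3 : Fin 4) ≠ 0 by decide]
      ring
    · -- the pendant part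
      have hge : D ≤ v.length := by omega
      have h0 : gg D v = cc D / 2 ^ (v.length - D) := gg_high hge hvS
      have h1 : gg D (b :: v) = cc D / 2 ^ (v.length - D) / 2 := by
        rw [gg_high (by simp only [List.length_cons]; omega) hw]
        simp only [List.length_cons]
        rw [show v.length + 1 - D = (v.length - D) + 1 by omega, pow_succ]
        field_simp
      have h2 : ∀ a : Fin 4, gg D (a :: b :: v) = cc D / 2 ^ (v.length - D) / 4 := by
        intro a
        have hn : ¬ isS D (a :: b :: v) := by
          intro h
          have := h.2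
          simp only [List.length_cons] at this
          omega
        rw [gg_high (by simp only [List.length_cons]; omega) hn]
        simp only [List.length_cons]
        rw [show v.length + 1 + 1 - D = (v.length - D) + 2 by omega, pow_succ, pow_succ]
        field_simp
        norm_num
      by_cases hlen : (b :: v).length < N
      · simp only [h0, h1, h2, if_pos hlen, Finset.sum_const, Finset.card_univ, Fintype.card_fin,
          nsmul_eq_mul]
        push_cast
        ring
      · simp only [h0, h1, if_neg hlen, Finset.sum_const_zero]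
        ring

theorem opM_gg_S {D N : ℕ} [Fintype (W D N)] [DecidableRel (tr D N).Adj]
    (w : W D N) (hw : isS D w.1) : opM (tr D N) (fun v => gg D v.1) w = 3 / 4 := by
  classical
  obtain ⟨w, hokw⟩ := w
  simp only at hw
  unfold opM
  rw [degree_eq, sum_nbr]
  simp only
  have hok : ∀ a : Fin 4, ¬ ok D N (a :: w) := fun a h => h.2.2 hw
  simp only [hok, if_false, Finset.sum_const_zero]
  cases w with
  | nil => exact absurd hw id
  | cons b v =>
    rw [if_neg (List.cons_ne_nil _ _), if_neg (List.cons_ne_nil _ _), List.tail_cons, gg_S hw]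
    have h0 : gg D v = cc D := by
      rw [gg_low (by rw [hw.2]), hw.2]
      simp [cc]
    rw [h0]
    ring

theorem gg_ge {D s : ℕ} (hs : (2 : ℝ) ^ (s + 1) ≤ 2 * cc D) {w : List (Fin 4)}
    (hlen : w.length ≤ D + s + 1) (hw : ¬ isS D w) : 1 / 2 ≤ gg D w := by
  by_cases h : w.length ≤ D
  · rw [gg_low h]
    have h1 : (1 : ℝ) ≤ 2 ^ (D - w.length) := one_le_pow₀ (by norm_num)
    have h2 : (0 : ℝ) ≤ 3 * (w.length : ℝ) / 8 := by positivity
    nlinarith
  · rw [gg_high (by omega) hw]
    rw [div_le_div_iff₀ (by norm_num) (by positivity)]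
    have h1 : (2 : ℝ) ^ (w.length - D) ≤ 2 ^ (s + 1) :=
      pow_le_pow_right₀ (by norm_num) (by omega)
    linarith

open Classical in
theorem gammaE_tr_le (D s : ℕ) (hD : 1 ≤ D) (hs : (2 : ℝ) ^ (s + 1) ≤ 2 * cc D) :
    gammaE (tr D (D + s + 1)) ≤ 4 ^ D := by
  have : Fintype (W D (D + s + 1)) := Fintype.ofFinite _
  set S : Finset (W D (D + s + 1)) := Finset.univ.filter (fun w => isS D w.1) with hS
  have hmem : ∀ w, w ∈ S ↔ isS D w.1 := fun w => by rw [hS]; simp
  have hdom : IsExpDom (tr D (D + s + 1)) S := by
    refine isExpDom_of_leaves (tr_isTree _ _) S ?_ (fun v => gg D v.1) ?_ ?_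
    · intro x hx y y' hy hy'
      rw [hmem] at hx
      have key : ∀ z, (tr D (D + s + 1)).Adj x z → par x = z := by
        intro z hz
        rcases hz with h | h
        · exact h.2
        · exfalso
          obtain ⟨h1, h2⟩ := h
          rw [ne_root] at h1
          obtain ⟨b, v, hbv⟩ := List.exists_cons_of_ne_nil h1
          have hz := z.2
          rw [hbv] at hz
          have hv : v = x.1 := by
            have := congrArg Subtype.val h2
            simp only [par, hbv, List.tail_cons] at this
            exact this
          exact hz.2.2 (hv ▸ hx)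
      rw [← key y hy, key y' hy']
    · intro x
      by_cases hx : isS D x.1
      · rw [if_pos ((hmem x).2 hx), opM_gg_S x hx]
      · rw [if_neg (fun h => hx ((hmem x).1 h)), opM_gg hD (by omega) x hx]
    · intro x hx
      rw [hmem] at hx
      exact gg_ge hs (ok_length x.2) hx
  refine (gammaE_le _ S hdom).trans ?_
  have hcard : S.card ≤ (Finset.univ : Finset (List.Vector (Fin 4) D)).card := by
    refine Finset.card_le_card_of_injOn
      (fun w => if h : w.1.tail.length = D then (⟨w.1.tail, h⟩ : List.Vector (Fin 4) D)
        else default) (fun _ _ => Finset.mem_coe.2 (Finset.mem_univ _)) ?_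
    intro x hx y hy hxy
    rw [Finset.mem_coe, hmem] at hx hy
    apply Subtype.ext
    obtain ⟨x, hxo⟩ := x
    obtain ⟨y, hyo⟩ := y
    simp only at hx hy hxy ⊢
    cases x with
    | nil => exact absurd hx id
    | cons a v =>
      cases y with
      | nil => exact absurd hy id
      | cons b u =>
        have e1 : (a :: v).tail.length = D := hx.2
        have e2 : (b :: u).tail.length = D := hy.2
        rw [dif_pos e1, dif_pos e2] at hxy
        have := congrArg Subtype.val hxy
        simp only [List.tail_cons] at this
        rw [this, hx.1, hy.1]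
  rwa [Finset.card_univ, card_vector, Fintype.card_fin] at hcard

theorem ok_low {D N : ℕ} : ∀ {w : List (Fin 4)}, w.length ≤ D → D < N → ok D N w
  | [], _, _ => trivial
  | a :: w, h, hN => by
    simp only [List.length_cons] at h
    refine ⟨ok_low (by omega) hN, by omega, ?_⟩
    intro hS
    cases w with
    | nil => exact hS
    | cons b v =>
      have := hS.2
      simp only [List.length_cons] at h
      omega

theorem ok_high {D N : ℕ} {x : List (Fin 4)} (hx : x.length = D) :
    ∀ {y : List (Fin 4)}, D + y.length < N → ok D N (y ++ 1 :: x)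
  | [], h => by
    simp only [List.length_nil] at h
    refine ⟨ok_low (by omega) (by omega), by omega, ?_⟩
    intro hS
    cases x with
    | nil => exact hS
    | cons b v =>
      have := hS.2
      simp only [List.length_cons] at hx
      omega
  | a :: y, h => by
    simp only [List.length_cons] at h
    have hlen : (y ++ 1 :: x).length < N := by
      rw [List.length_append, List.length_cons]
      omega
    refine ⟨ok_high hx (by omega), hlen, ?_⟩
    cases y with
    | nil =>
      rintro ⟨h1, _⟩
      exact absurd h1 (by decide)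
    | cons b v =>
      rintro ⟨_, h2⟩
      have h3 : (v ++ 1 :: x).length = D := h2
      rw [List.length_append, List.length_cons] at h3
      omega

theorem card_W_ge (D s : ℕ) [Fintype (W D (D + s + 1))] :
    4 ^ (D + s) ≤ Fintype.card (W D (D + s + 1)) := by
  have h : Fintype.card (List.Vector (Fin 4) D × List.Vector (Fin 4) s) ≤
      Fintype.card (W D (D + s + 1)) := by
    refine Fintype.card_le_of_injective
      (fun p => (⟨p.2.1 ++ 1 :: p.1.1, ok_high p.1.2 (by rw [p.2.2]; omega)⟩ :
        W D (D + s + 1))) ?_
    rintro ⟨⟨x, hx⟩, ⟨y, hy⟩⟩ ⟨⟨x', hx'⟩, ⟨y', hy'⟩⟩ h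
    have h1 := congrArg Subtype.val h
    simp only at h1
    have h2 := List.append_inj h1 (by rw [hy, hy'])
    have h3 := (List.cons.inj h2.2).2
    have h4 := h2.1
    subst h3 h4
    rfl
  rwa [Fintype.card_prod, card_vector, card_vector, Fintype.card_fin, ← pow_add] at h

end Pool.Agent.Work.MP_75fda7_co
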